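import Pool.Agent.MNT.StmtsG

set_option autoImplicit false

namespace Pool.Agent.MNT.H95

open Polynomial NumberField Function
open scoped Classical

theorem pfl : PflStmt := by
  intro K _ _ ι _ _ y hy
  have hy0 : y ≠ 0 := fun h => hy (Classical.arbitrary ι) (congrFun h _)
  have hfin : ∀ i, (fun v : FinitePlace K => v (y i)).HasFiniteMulSupport :=
    fun i => FinitePlace.hasFiniteMulSupport (hy i)
  set B : FinitePlace K → ℝ := fun v => ⨆ i, v (y i) with hB
  have sB : B.HasFiniteMulSupport := .iSup hfin
  refine ⟨(Finset.univ.biUnion fun i => (hfin i).toFinset) ∪ sB.toFinset, ?_⟩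
  intro T hT
  have hpos : ∀ (v : FinitePlace K) i, 0 < v (y i) := fun v i => by
    have := hy i
    exact v.pos_iff.mpr this
  have hposI : ∀ (v : InfinitePlace K) i, 0 < v (y i) := fun v i => by
    exact InfinitePlace.pos_iff.mpr (hy i)
  constructor
  · intro i
    have h1 := prod_abs_eq_one (hy i)
    have hsub : Function.mulSupport (fun v : FinitePlace K => v (y i)) ⊆ (T : Set (FinitePlace K)) := by
      intro v hv
      apply hT
      rw [Finset.mem_union, Finset.mem_biUnion]
      left
      exact ⟨i, Finset.mem_univ _, (Set.Finite.mem_toFinset _).mpr hv⟩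
    rw [finprod_eq_prod_of_mulSupport_subset _ hsub] at h1
    have h2 := congrArg Real.log h1
    rw [Real.log_mul, Real.log_prod, Real.log_prod, Real.log_one] at h2
    · simpa [Real.log_pow] using h2
    · intro v _
      exact (hpos v i).ne'
    · intro v _
      exact pow_ne_zero _ (hposI v i).ne'
    · exact Finset.prod_ne_zero_iff.mpr fun v _ => pow_ne_zero _ (hposI v i).ne'
    · exact Finset.prod_ne_zero_iff.mpr fun v _ => (hpos v i).ne'
  · rw [NumberField.mulHeight_eq hy0]
    have hBpos : ∀ v : FinitePlace K, 0 < ⨆ i, v (y i) := fun v =>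
      lt_of_lt_of_le (hpos v (Classical.arbitrary ι))
        (le_ciSup (f := fun i => v (y i)) (Set.finite_range _).bddAbove _)
    have hApos : ∀ v : InfinitePlace K, 0 < ⨆ i, v (y i) := fun v =>
      lt_of_lt_of_le (hposI v (Classical.arbitrary ι))
        (le_ciSup (f := fun i => v (y i)) (Set.finite_range _).bddAbove _)
    have hsub : Function.mulSupport (fun v : FinitePlace K => ⨆ i, v (y i)) ⊆
        (T : Set (FinitePlace K)) := by
      intro v hv
      apply hT
      rw [Finset.mem_union]
      right
      exact (Set.Finite.mem_toFinset _).mpr hv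
    rw [finprod_eq_prod_of_mulSupport_subset _ hsub]
    rw [Real.log_mul, Real.log_prod, Real.log_prod]
    · simp [Real.log_pow]
    · intro v _
      exact (hBpos v).ne'
    · intro v _
      exact pow_ne_zero _ (hApos v).ne'
    · exact Finset.prod_ne_zero_iff.mpr fun v _ => pow_ne_zero _ (hApos v).ne'
    · exact Finset.prod_ne_zero_iff.mpr fun v _ => (hBpos v).ne'

end Pool.Agent.MNT.H95
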